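import Mathlib

namespace Pool.Agent.Results.MP_5daced_lc.Yes

/-- formulas in negation normal form -/
inductive Fm
  | lit (p : ℕ) | nlit (p : ℕ) | bot | top | and (φ ψ : Fm) | or (φ ψ : Fm)
  | dia (φ : Fm) | box (φ : Fm)

def Pos (P : List ℕ) : Fm → Prop
  | .nlit p => p ∉ P
  | .and φ ψ => Pos P φ ∧ Pos P ψ
  | .or φ ψ => Pos P φ ∧ Pos P ψ
  | .dia φ => Pos P φ
  | .box φ => Pos P φ
  | _ => True

def ev {W : Type} (D : Set W → Set W) (θ : ℕ → Set W) : Fm → Set W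
  | .lit p => θ p
  | .nlit p => (θ p)ᶜ
  | .bot => ∅
  | .top => Set.univ
  | .and φ ψ => ev D θ φ ∩ ev D θ ψ
  | .or φ ψ => ev D θ φ ∪ ev D θ ψ
  | .dia φ => D (ev D θ φ)
  | .box φ => (D (ev D θ φ)ᶜ)ᶜ

def img {W : Type} (Z : W → W → Prop) (X : Set W) : Set W := {v | ∃ w ∈ X, Z w v}

def DirBisim {W : Type} (D : Set W → Set W) (P : List ℕ) (θ₁ θ₂ : ℕ → Set W)
    (Z : W → W → Prop) : Prop :=
  (∀ X, img Z (D X) ⊆ D (img Z X)) ∧ (∀ X, img (flip Z) (D X) ⊆ D (img (flip Z) X)) ∧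
  (∀ p, img Z (θ₁ p) ⊆ θ₂ p) ∧ ∀ p ∉ P, img Z (θ₁ p)ᶜ ⊆ (θ₂ p)ᶜ

def Sup (V : List ℕ) : Fm → Prop
  | .lit p => p ∈ V
  | .nlit p => p ∈ V
  | .and φ ψ => Sup V φ ∧ Sup V ψ
  | .or φ ψ => Sup V φ ∧ Sup V ψ
  | .dia φ => Sup V φ
  | .box φ => Sup V φ
  | _ => True

theorem Sup.mono {V V' : List ℕ} (h : V ⊆ V') : ∀ φ, Sup V φ → Sup V' φ := by
  intro φ
  induction φ <;> simp only [Sup] <;> tauto

theorem exists_sup : ∀ φ, ∃ V, Sup V φ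
  | .lit p => ⟨[p], by simp [Sup]⟩
  | .nlit p => ⟨[p], by simp [Sup]⟩
  | .bot => ⟨[], trivial⟩
  | .top => ⟨[], trivial⟩
  | .and φ ψ => let ⟨V, h⟩ := exists_sup φ; let ⟨V', h'⟩ := exists_sup ψ
    ⟨V ++ V', Sup.mono (by simp) _ h, Sup.mono (by simp) _ h'⟩
  | .or φ ψ => let ⟨V, h⟩ := exists_sup φ; let ⟨V', h'⟩ := exists_sup ψ
    ⟨V ++ V', Sup.mono (by simp) _ h, Sup.mono (by simp) _ h'⟩
  | .dia φ => exists_sup φ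
  | .box φ => exists_sup φ

theorem ev_congr {W : Type} (D : Set W → Set W) {θ θ' : ℕ → Set W} {V : List ℕ}
    (h : ∀ p ∈ V, θ p = θ' p) : ∀ φ, Sup V φ → ev D θ φ = ev D θ' φ := by
  intro φ
  induction φ <;> simp only [Sup, ev] <;> intro hh <;> simp_all

theorem upset {Ω : Type} [Finite Ω] (L : Set (Set Ω)) (h0 : ∅ ∈ L) (h1 : Set.univ ∈ L)
    (hu : SupClosed L) (hi : InfClosed L) (U : Set Ω)
    (hU : ∀ x ∈ U, ∀ y, (∀ S ∈ L, x ∈ S → y ∈ S) → y ∈ U) : U ∈ L := by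
  have : ∀ x : U, ∀ y : (Uᶜ : Set Ω), ∃ S ∈ L, x.1 ∈ S ∧ y.1 ∉ S := by
    intro x y
    by_contra hc
    push Not at hc
    exact y.2 (hU x x.2 y hc)
  choose S hS h2 h3 using this
  have e : U = ⨆ x, ⨅ y, S x y := by
    ext z
    simp only [Set.iSup_eq_iUnion, Set.iInf_eq_iInter, Set.mem_iUnion, Set.mem_iInter]
    refine ⟨fun hz => ⟨⟨z, hz⟩, h2 _⟩, fun ⟨x, hx⟩ => ?_⟩
    by_contra hz
    exact h3 x ⟨z, hz⟩ (hx _)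
  rw [e]
  exact hu.iSup_mem h0 fun x => hi.iInf_mem h1 fun y => hS x y

theorem pres {W : Type} {D : Set W → Set W} (hD : Monotone D) {P : List ℕ} {θ₁ θ₂ : ℕ → Set W}
    {Z : W → W → Prop} (h : DirBisim D P θ₁ θ₂ Z) :
    ∀ ψ, Pos P ψ → img Z (ev D θ₁ ψ) ⊆ ev D θ₂ ψ := by
  intro ψ
  induction ψ with
  | lit p => exact fun _ => h.2.2.1 p
  | nlit p => exact h.2.2.2 p
  | bot => exact fun _ v ⟨_, hw, _⟩ => hw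
  | top => exact fun _ _ _ => trivial
  | and φ ψ h1 h2 =>
    exact fun hp v ⟨w, hw, hz⟩ => ⟨h1 hp.1 ⟨w, hw.1, hz⟩, h2 hp.2 ⟨w, hw.2, hz⟩⟩
  | or φ ψ h1 h2 =>
    exact fun hp v ⟨w, hw, hz⟩ =>
      hw.imp (fun hw => h1 hp.1 ⟨w, hw, hz⟩) fun hw => h2 hp.2 ⟨w, hw, hz⟩
  | dia φ h1 => exact fun hp => (h.1 _).trans (hD (h1 hp))
  | box φ h1 =>
    rintro hp v ⟨w, hw, hz⟩ hv
    refine hw (hD ?_ (h.2.1 _ ⟨v, hv, hz⟩))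
    rintro a ⟨b, hb, hab⟩ ha
    exact hb (h1 hp ⟨a, ha, hab⟩)

theorem result (W : Type) [Finite W] (D : Set W → Set W) (hD : Monotone D) (P : List ℕ)
    (φ : Fm) : (∃ ψ, Pos P ψ ∧ ∀ θ, ev D θ φ = ev D θ ψ) ↔
      ∀ θ₁ θ₂ Z, DirBisim D P θ₁ θ₂ Z → img Z (ev D θ₁ φ) ⊆ ev D θ₂ φ := by
  classical
  refine ⟨fun ⟨ψ, h1, h2⟩ θ₁ θ₂ Z hZ => by rw [h2, h2]; exact pres hD hZ ψ h1, fun h => ?_⟩
  obtain ⟨V, hV⟩ := exists_sup φ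
  let ext : (V.toFinset → Set W) → ℕ → Set W := fun t p =>
    if h : p ∈ V.toFinset then t ⟨p, h⟩ else ∅
  let den : Fm → Set ((V.toFinset → Set W) × W) := fun ψ => {x | x.2 ∈ ev D (ext x.1) ψ}
  let L : Set (Set ((V.toFinset → Set W) × W)) := den '' {ψ | Pos P ψ ∧ Sup V ψ}
  have up := upset L ⟨.bot, ⟨trivial, trivial⟩, rfl⟩ ⟨.top, ⟨trivial, trivial⟩, rfl⟩
    (by rintro _ ⟨a, ha, rfl⟩ _ ⟨b, hb, rfl⟩; exact ⟨.or a b, ⟨⟨ha.1, hb.1⟩, ha.2, hb.2⟩, rfl⟩)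
    (by rintro _ ⟨a, ha, rfl⟩ _ ⟨b, hb, rfl⟩; exact ⟨.and a b, ⟨⟨ha.1, hb.1⟩, ha.2, hb.2⟩, rfl⟩)
  let le := fun x y : (V.toFinset → Set W) × W => ∀ S ∈ L, x ∈ S → y ∈ S
  have hZ : ∀ t t', DirBisim D P (ext t) (ext t') fun w v => le (t, w) (t', v) := by
    intro t t'
    refine ⟨?_, ?_, ?_, ?_⟩
    · rintro X v ⟨w, hw, hz⟩
      obtain ⟨ψ, hψ, e⟩ := up {y | ∃ a ∈ X, le (t, a) y}
        fun x ⟨a, ha, h1⟩ y h2 => ⟨a, ha, fun S hS h3 => h2 S hS (h1 S hS h3)⟩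
      have e' : ∀ s b, b ∈ ev D (ext s) ψ ↔ ∃ a ∈ X, le (t, a) (s, b) := fun s b =>
        Set.ext_iff.1 e (s, b)
      have := hz _ ⟨.dia ψ, hψ, rfl⟩ (hD (fun a ha => (e' t a).2 ⟨a, ha, fun _ _ => id⟩) hw)
      exact hD (fun b hb => (e' t' b).1 hb) this
    · rintro X w ⟨v, hv, hz⟩
      obtain ⟨ψ, hψ, e⟩ := up {y | ¬ ∃ a ∈ X, le y (t', a)}
        fun x h1 y h2 ⟨a, ha, h3⟩ => h1 ⟨a, ha, fun S hS h4 => h3 S hS (h2 S hS h4)⟩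
      have e' : ∀ s b, b ∈ ev D (ext s) ψ ↔ ¬ ∃ a ∈ X, le (s, b) (t', a) := fun s b =>
        Set.ext_iff.1 e (s, b)
      by_contra hw
      refine hz _ ⟨.box ψ, hψ, rfl⟩ (fun h1 => hw (hD (fun b hb => ?_) h1))
        (hD (fun a ha h1 => (e' t' a).1 h1 ⟨a, ha, fun _ _ => id⟩) hv)
      by_contra h2
      exact hb ((e' t b).2 h2)
    · rintro p v ⟨w, hw, hz⟩
      by_cases hp : p ∈ V
      · exact hz _ ⟨.lit p, ⟨trivial, hp⟩, rfl⟩ hw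
      · simp [ext, hp] at hw
    · rintro p hp' v ⟨w, hw, hz⟩
      by_cases hp : p ∈ V
      · exact hz _ ⟨.nlit p, ⟨hp', hp⟩, rfl⟩ hw
      · simp [ext, hp]
  obtain ⟨ψ, hψ, e⟩ := up (den φ) fun x hx y hxy => h _ _ _ (hZ x.1 y.1) ⟨x.2, hx, hxy⟩
  refine ⟨ψ, hψ.1, fun θ => ?_⟩
  have e1 : ∀ p ∈ V, θ p = ext (fun q => θ q) p := fun p hp => by simp [ext, hp]
  rw [ev_congr D e1 φ hV, ev_congr D e1 ψ hψ.2]
  ext w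
  exact (Set.ext_iff.1 e (fun q => θ q, w)).symm

end Pool.Agent.Results.MP_5daced_lc.Yes
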